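import Mathlib

/-!
# MP_6cdbe4_gt: the symmetric powers have many extensions onto the Kleisli category of max-min
measures

For every `n ≥ 1` the functor `SPⁿ` on ultrametric spaces has more than one extension onto the
Kleisli category of the monad `𝕁_ω` of max-min measures of finite support: every order automorphism
of `[-∞, ∞]` gives an extension, and different automorphisms give different extensions.
-/

set_option autoImplicit false
set_option linter.unusedSectionVars false

open Set Metric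

namespace Pool.Agent.Results.MP_6cdbe4_gt.ManyExtensions

universe u

/-- An ultrametric space. -/
structure UMet : Type (u + 1) where
  carrier : Type u
  [metric : MetricSpace carrier]
  [ultra : IsUltrametricDist carrier]

attribute [instance] UMet.metric UMet.ultra

instance : CoeSort UMet.{u} (Type u) := ⟨UMet.carrier⟩

/-- A max-min measure of finite support `⋁ᵢ αᵢ ∧ δ_{xᵢ}` (with `maxᵢ αᵢ = +∞`) on `X`, encoded by
its coefficients: `coef x` is the maximum of the `αᵢ` with `xᵢ = x` (and `-∞` if there is none). -/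
@[ext] structure MaxMin (X : Type u) where
  coef : X → EReal
  finite_support : {x | coef x ≠ ⊥}.Finite
  exists_top : ∃ x, coef x = ⊤

namespace MaxMin

variable {X Y Z : Type u}

/-- The value `μ(φ) = maxᵢ min(αᵢ, φ(xᵢ))` of a max-min measure at a function with values in
`[-∞, ∞]`. -/
noncomputable def eval (μ : MaxMin X) (φ : X → EReal) : EReal := ⨆ x, μ.coef x ⊓ φ x

/-- The measure `δ_x`. -/
noncomputable def dirac (x : X) : MaxMin X where
  coef y := ⨆ _ : y = x, ⊤
  finite_support := by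
    refine (Set.finite_singleton x).subset fun y hy => ?_
    by_contra h
    apply hy
    simp only [Set.mem_singleton_iff] at h
    simp [h]
  exists_top := ⟨x, by simp⟩

/-- The measure `J_ω(f)(μ) = ⋁ᵢ αᵢ ∧ δ_{f(xᵢ)}`. -/
noncomputable def map (f : X → Y) (μ : MaxMin X) : MaxMin Y where
  coef y := ⨆ x : {x // f x = y}, μ.coef x
  finite_support := by
    refine (μ.finite_support.image f).subset fun y hy => ?_
    by_contra h
    apply hy
    rw [iSup_eq_bot]
    rintro ⟨x, rfl⟩
    by_contra h2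
    exact h ⟨x, h2, rfl⟩
  exists_top := by
    obtain ⟨x, hx⟩ := μ.exists_top
    exact ⟨f x, top_le_iff.mp (le_iSup_of_le ⟨x, rfl⟩ hx.ge)⟩

/-- The multiplication `ξ_X` of the monad:
`ξ_X(⋁ᵢ αᵢ ∧ δ_{μᵢ}) = ⋁ᵢⱼ min(αᵢ, βᵢⱼ) ∧ δ_{xᵢⱼ}` when `μᵢ = ⋁ⱼ βᵢⱼ ∧ δ_{xᵢⱼ}`. -/
noncomputable def join (M : MaxMin (MaxMin X)) : MaxMin X where
  coef x := ⨆ μ, M.coef μ ⊓ μ.coef x
  finite_support := by
    refine (M.finite_support.biUnion fun μ _ => μ.finite_support).subset fun x hx => ?_
    by_contra h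
    apply hx
    rw [iSup_eq_bot]
    intro μ
    by_contra h2
    apply h
    simp only [Set.mem_iUnion, Set.mem_ofPred_eq]
    refine ⟨μ, ?_, ?_⟩
    · intro h3; apply h2; rw [h3, bot_inf_eq]
    · intro h3; apply h2; rw [h3, inf_bot_eq]
  exists_top := by
    obtain ⟨μ, hμ⟩ := M.exists_top
    obtain ⟨x, hx⟩ := μ.exists_top
    exact ⟨x, top_le_iff.mp (le_iSup_of_le μ (by rw [hμ, hx, inf_top_eq]))⟩

/-- `𝓕_r(X)`: the real functions on `X` which are constant on every open ball of radius `r`. -/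
def ballConst (X : Type u) [MetricSpace X] (r : ℝ) : Set (X → ℝ) :=
  {φ | ∀ x, ∀ y ∈ ball x r, φ y = φ x}

/-- `μ` and `ν` agree on `𝓕_r(X)`. -/
def Agree [MetricSpace X] (r : ℝ) (μ ν : MaxMin X) : Prop :=
  ∀ φ ∈ ballConst X r, μ.eval (fun x => (φ x : EReal)) = ν.eval fun x => (φ x : EReal)

/-- The distance `d̂(μ, ν) = inf {r > 0 : μ(φ) = ν(φ) for all φ ∈ 𝓕_r(X)}`. -/
noncomputable def dhat [MetricSpace X] (μ ν : MaxMin X) : ℝ :=
  sInf {r : ℝ | 0 < r ∧ Agree r μ ν}

/-! ### The distance -/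

section Dist

variable [MetricSpace X] [IsUltrametricDist X]

/-- the supremum of the coefficients on a ball -/
noncomputable def bs (μ : MaxMin X) (r : ℝ) (x : X) : EReal :=
  ⨆ y : {y // dist y x < r}, μ.coef y

theorem bs_congr (μ : MaxMin X) {r : ℝ} {x y : X} (h : dist x y < r) : μ.bs r x = μ.bs r y := by
  apply le_antisymm
  · refine iSup_le fun z => le_iSup_of_le ⟨z.1, ?_⟩ le_rfl
    exact (dist_triangle_max z.1 x y).trans_lt (max_lt z.2 h)
  · refine iSup_le fun z => le_iSup_of_le ⟨z.1, ?_⟩ le_rfl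
    exact (dist_triangle_max z.1 y x).trans_lt (max_lt z.2 (by rwa [dist_comm]))

/-- evaluation at a function constant on balls -/
theorem eval_eq_bs (μ : MaxMin X) {r : ℝ} (hr : 0 < r) {h : X → EReal}
    (hh : ∀ x y, dist y x < r → h y = h x) : μ.eval h = ⨆ x, μ.bs r x ⊓ h x := by
  apply le_antisymm
  · refine iSup_le fun x => le_iSup_of_le x (inf_le_inf_right _ ?_)
    exact le_iSup_of_le ⟨x, by simpa using hr⟩ le_rfl
  · refine iSup_le fun x => ?_
    rw [bs, iSup_inf_eq]
    refine iSup_le fun y => ?_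
    rw [← hh x y.1 y.2]
    exact le_iSup (fun x => μ.coef x ⊓ h x) y.1

theorem agree_iff {r : ℝ} (hr : 0 < r) {μ ν : MaxMin X} :
    Agree r μ ν ↔ ∀ x, μ.bs r x = ν.bs r x := by
  constructor
  · -- it suffices to show `≤`
    have key : ∀ μ ν : MaxMin X, Agree r μ ν → ∀ x, μ.bs r x ≤ ν.bs r x := by
      intro μ ν h x
      by_contra hlt
      push Not at hlt
      obtain ⟨t, ht1, ht2⟩ := EReal.lt_iff_exists_real_btwn.mp hlt
      classical
      let φ : X → ℝ := fun y => if dist y x < r then t else t - 1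
      have hφ : φ ∈ ballConst X r := by
        intro y z hz
        rw [mem_ball] at hz
        have : dist z x < r ↔ dist y x < r := by
          constructor
          · intro h; exact (dist_triangle_max y z x).trans_lt (max_lt (by rwa [dist_comm]) h)
          · intro h; exact (dist_triangle_max z y x).trans_lt (max_lt hz h)
        simp only [φ, this]
      have h2 := h φ hφ
      have h3 : (t : EReal) ≤ μ.eval fun y => (φ y : EReal) := by
        have h4 : (t : EReal) = μ.bs r x ⊓ t := (inf_eq_right.mpr ht2.le).symm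
        rw [h4, bs, iSup_inf_eq]
        refine iSup_le fun y => le_iSup_of_le y.1 ?_
        simp only [φ, if_pos y.2, le_refl]
      have h5 : ν.eval (fun y => (φ y : EReal)) ≤ ν.bs r x ⊔ ((t - 1 : ℝ) : EReal) := by
        refine iSup_le fun y => ?_
        by_cases hy : dist y x < r
        · refine le_sup_of_le_left (inf_le_of_left_le ?_)
          exact le_iSup_of_le ⟨y, hy⟩ le_rfl
        · refine le_sup_of_le_right (inf_le_of_right_le ?_)
          simp only [φ, if_neg hy, le_refl]
      have h6 : ν.bs r x ⊔ ((t - 1 : ℝ) : EReal) < t := by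
        refine max_lt ht1 ?_
        rw [EReal.coe_lt_coe_iff]
        linarith
      exact absurd (h3.trans (h2.le.trans h5)) (not_le.mpr h6)
    intro h x
    exact le_antisymm (key μ ν h x) (key ν μ (fun φ hφ => (h φ hφ).symm) x)
  · intro h φ hφ
    have hh : ∀ x y, dist y x < r → (φ y : EReal) = φ x := by
      intro x y hxy
      rw [hφ x y hxy]
    rw [eval_eq_bs μ hr hh, eval_eq_bs ν hr hh]
    simp only [h]

theorem Agree.mono {r s : ℝ} {μ ν : MaxMin X} (h : Agree r μ ν) (hrs : r ≤ s) : Agree s μ ν :=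
  fun φ hφ => h φ fun x y hy => hφ x y (ball_subset_ball hrs hy)

theorem bddBelow (μ ν : MaxMin X) : BddBelow {r : ℝ | 0 < r ∧ Agree r μ ν} :=
  ⟨0, fun _ hr => hr.1.le⟩

theorem exists_agree (μ ν : MaxMin X) : ∃ r : ℝ, 0 < r ∧ Agree r μ ν := by
  obtain ⟨x₀, hx₀⟩ := μ.exists_top
  obtain ⟨R, hR⟩ := (μ.finite_support.union ν.finite_support).isBounded.subset_ball x₀
  refine ⟨max R 1, by positivity, fun φ hφ => ?_⟩
  have key : ∀ ρ : MaxMin X, {x | ρ.coef x ≠ ⊥} ⊆ ball x₀ R →
      ρ.eval (fun x => (φ x : EReal)) = φ x₀ := by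
    intro ρ hρ
    have h1 : ∀ x, ρ.coef x ≠ ⊥ → φ x = φ x₀ := fun x hx =>
      hφ x₀ x (ball_subset_ball (le_max_left _ _) (hρ hx))
    apply le_antisymm
    · refine iSup_le fun x => ?_
      by_cases hx : ρ.coef x = ⊥
      · rw [hx, bot_inf_eq]; exact bot_le
      · show ρ.coef x ⊓ (φ x : EReal) ≤ φ x₀
        rw [h1 x hx]; exact inf_le_right
    · obtain ⟨x, hx⟩ := ρ.exists_top
      refine le_iSup_of_le x ?_
      show (φ x₀ : EReal) ≤ ρ.coef x ⊓ (φ x : EReal)
      rw [hx, top_inf_eq, h1 x (by rw [hx]; exact top_ne_bot)]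
  rw [key μ (subset_union_left.trans hR), key ν (subset_union_right.trans hR)]

theorem agree_of_dhat_lt {r : ℝ} {μ ν : MaxMin X} (h : dhat μ ν < r) : Agree r μ ν := by
  obtain ⟨s, hs, hsr⟩ := exists_lt_of_csInf_lt (exists_agree μ ν) h
  exact hs.2.mono hsr.le

theorem dhat_le_of_agree {r : ℝ} {μ ν : MaxMin X} (hr : 0 < r) (h : Agree r μ ν) :
    dhat μ ν ≤ r := csInf_le (bddBelow μ ν) ⟨hr, h⟩

theorem dhat_nonneg (μ ν : MaxMin X) : 0 ≤ dhat μ ν :=
  Real.sInf_nonneg fun _ hr => hr.1.le

theorem dhat_comm (μ ν : MaxMin X) : dhat μ ν = dhat ν μ := by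
  unfold dhat
  congr 1
  ext r
  exact ⟨fun h => ⟨h.1, fun φ hφ => (h.2 φ hφ).symm⟩, fun h => ⟨h.1, fun φ hφ => (h.2 φ hφ).symm⟩⟩

theorem dhat_self (μ : MaxMin X) : dhat μ μ = 0 := by
  apply le_antisymm _ (dhat_nonneg μ μ)
  apply le_of_forall_pos_le_add
  intro ε hε
  rw [zero_add]
  exact dhat_le_of_agree hε fun _ _ => rfl

theorem dhat_ultra (μ ν ρ : MaxMin X) : dhat μ ρ ≤ max (dhat μ ν) (dhat ν ρ) := by
  apply le_of_forall_pos_le_add
  intro ε hε
  have h1 : 0 ≤ max (dhat μ ν) (dhat ν ρ) := le_max_of_le_left (dhat_nonneg _ _)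
  apply dhat_le_of_agree (by linarith)
  intro φ hφ
  have h2 : Agree (max (dhat μ ν) (dhat ν ρ) + ε) μ ν :=
    agree_of_dhat_lt (by linarith [le_max_left (dhat μ ν) (dhat ν ρ)])
  have h3 : Agree (max (dhat μ ν) (dhat ν ρ) + ε) ν ρ :=
    agree_of_dhat_lt (by linarith [le_max_right (dhat μ ν) (dhat ν ρ)])
  exact (h2 φ hφ).trans (h3 φ hφ)

theorem eq_of_agree {μ ν : MaxMin X} (h : ∀ r : ℝ, 0 < r → Agree r μ ν) : μ = ν := by
  ext x
  -- a ball around `x` which contains no other point of the supports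
  obtain ⟨r, hr, hr2⟩ : ∃ r : ℝ, 0 < r ∧ ∀ y ∈ ({x | μ.coef x ≠ ⊥} ∪ {x | ν.coef x ≠ ⊥}) \ {x},
      r ≤ dist y x := by
    have hfin : (({x | μ.coef x ≠ ⊥} ∪ {x | ν.coef x ≠ ⊥}) \ {x}).Finite :=
      (μ.finite_support.union ν.finite_support).sdiff
    by_cases hne : (({x | μ.coef x ≠ ⊥} ∪ {x | ν.coef x ≠ ⊥}) \ {x}).Nonempty
    · obtain ⟨y, hy, hy2⟩ := hfin.exists_minimalFor (fun y => dist y x) _ hne
      refine ⟨dist y x, dist_pos.mpr hy.2, fun z hz => ?_⟩
      by_contra hlt
      push Not at hlt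
      exact absurd (hy2 hz hlt.le) (not_le.mpr hlt)
    · rw [Set.not_nonempty_iff_eq_empty] at hne
      exact ⟨1, one_pos, fun y hy => by rw [hne] at hy; exact absurd hy (Set.notMem_empty y)⟩
  have key : ∀ ρ : MaxMin X, {x | ρ.coef x ≠ ⊥} ⊆ {x | μ.coef x ≠ ⊥} ∪ {x | ν.coef x ≠ ⊥} →
      ρ.bs r x = ρ.coef x := by
    intro ρ hρ
    apply le_antisymm
    · refine iSup_le fun y => ?_
      by_cases hy : y.1 = x
      · rw [hy]
      · by_cases hy2 : ρ.coef y.1 = ⊥
        · rw [hy2]; exact bot_le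
        · exact absurd (hr2 y.1 ⟨hρ hy2, hy⟩) (not_le.mpr y.2)
    · exact le_iSup_of_le ⟨x, by simpa using hr⟩ le_rfl
  rw [← key μ subset_union_left, ← key ν subset_union_right]
  exact (agree_iff hr).mp (h r hr) x

/-- The ultrametric `d̂` on `J_ω(X)`. -/
noncomputable instance : MetricSpace (MaxMin X) where
  dist := dhat
  dist_self := dhat_self
  dist_comm := dhat_comm
  dist_triangle μ ν ρ := (dhat_ultra μ ν ρ).trans
    (max_le_add_of_nonneg (dhat_nonneg _ _) (dhat_nonneg _ _))
  eq_of_dist_eq_zero {μ ν} h := eq_of_agree fun r hr => agree_of_dhat_lt (by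
    have h2 : dhat μ ν = 0 := h
    rw [h2]; exact hr)

instance : IsUltrametricDist (MaxMin X) where
  dist_triangle_max := dhat_ultra

end Dist

/-! ### Coefficients of composites -/

theorem coef_dirac_inf (x : X) (h : X → EReal) : ⨆ y, (dirac x).coef y ⊓ h y = h x := by
  apply le_antisymm
  · refine iSup_le fun y => ?_
    show (⨆ _ : y = x, ⊤) ⊓ h y ≤ h x
    rw [iSup_inf_eq]
    refine iSup_le fun hy => ?_
    rw [hy]; exact inf_le_right
  · refine le_iSup_of_le x ?_
    simp [dirac]

theorem coef_map_inf (f : X → Y) (μ : MaxMin X) (h : Y → EReal) :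
    ⨆ y, (μ.map f).coef y ⊓ h y = ⨆ x, μ.coef x ⊓ h (f x) := by
  apply le_antisymm
  · refine iSup_le fun y => ?_
    show (⨆ x : {x // f x = y}, μ.coef x) ⊓ h y ≤ _
    rw [iSup_inf_eq]
    refine iSup_le fun x => le_iSup_of_le x.1 ?_
    rw [x.2]
  · refine iSup_le fun x => le_iSup_of_le (f x) (inf_le_inf_right _ ?_)
    exact le_iSup_of_le (⟨x, rfl⟩ : {x' // f x' = f x}) le_rfl

theorem coef_join_map (g : X → MaxMin Y) (μ : MaxMin X) (y : Y) :
    (join (μ.map g)).coef y = ⨆ x, μ.coef x ⊓ (g x).coef y :=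
  coef_map_inf g μ fun ν => ν.coef y

/-- the Kleisli composition of a measure with a family of measures -/
theorem bs_bind [MetricSpace Y] (g : X → MaxMin Y) (μ : MaxMin X) (r : ℝ) (y : Y) :
    (join (μ.map g)).bs r y = ⨆ x, μ.coef x ⊓ (g x).bs r y := by
  unfold bs
  simp only [coef_join_map, inf_iSup_eq]
  rw [iSup_comm]

theorem bs_map [MetricSpace Y] (f : X → Y) (μ : MaxMin X) (r : ℝ) (y : Y) :
    (μ.map f).bs r y = ⨆ x : {x // dist (f x) y < r}, μ.coef x := by
  unfold bs
  apply le_antisymm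
  · refine iSup_le fun z => iSup_le fun x => ?_
    exact le_iSup_of_le (⟨x.1, by rw [x.2]; exact z.2⟩ : {x // dist (f x) y < r}) le_rfl
  · refine iSup_le fun x => le_iSup_of_le ⟨f x.1, x.2⟩ ?_
    exact le_iSup_of_le (⟨x.1, rfl⟩ : {x' // f x' = f x.1}) le_rfl

/-- the product of max-min measures -/
noncomputable def prod {n : ℕ} (μ : Fin n → MaxMin X) : MaxMin (Fin n → X) where
  coef x := ⨅ i, (μ i).coef (x i)
  finite_support := by
    refine (Set.Finite.pi' fun i => (μ i).finite_support).subset fun x hx i => ?_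
    intro h
    apply hx
    exact le_bot_iff.mp ((iInf_le _ i).trans h.le)
  exists_top := by
    choose x hx using fun i => (μ i).exists_top
    exact ⟨x, by simp [hx]⟩

end MaxMin

open MaxMin

/-! ### The Kleisli category -/

/-- A morphism `X → Y` of the Kleisli category: a nonexpanding map `X → J_ω(Y)`. -/
@[ext] structure KHom (X Y : UMet.{u}) where
  toFun : X → MaxMin Y
  nonexpanding : ∀ x x', dist (toFun x) (toFun x') ≤ dist x x'

/-- A morphism of ultrametric spaces: a nonexpanding map. -/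
@[ext] structure UHom (X Y : UMet.{u}) where
  toFun : X → Y
  nonexpanding : ∀ x x', dist (toFun x) (toFun x') ≤ dist x x'

/-- nonexpanding maps into spaces of measures in terms of suprema over balls -/
theorem nonexpanding_iff {X : Type u} [MetricSpace X] {Y : Type u} [MetricSpace Y]
    [IsUltrametricDist Y] (g : X → MaxMin Y) :
    (∀ x x', dist (g x) (g x') ≤ dist x x') ↔
      ∀ x x' (r : ℝ), dist x x' < r → ∀ y, (g x).bs r y = (g x').bs r y := by
  constructor
  · intro h x x' r hr
    exact (agree_iff (dist_nonneg.trans_lt hr)).mp (agree_of_dhat_lt ((h x x').trans_lt hr))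
  · intro h x x'
    apply le_of_forall_pos_le_add
    intro ε hε
    have hr : 0 < dist x x' + ε := by positivity
    exact dhat_le_of_agree hr ((agree_iff hr).mpr (h x x' _ (by linarith)))

/-- `Φ(f) = δ_Y ∘ f`. -/
noncomputable def Phi {X Y : UMet.{u}} (f : UHom X Y) : KHom X Y where
  toFun x := dirac (f.toFun x)
  nonexpanding := by
    rw [nonexpanding_iff]
    intro x x' r hr y
    have h1 : ∀ z : Y, (dirac z).bs r y = ⨆ _ : dist z y < r, ⊤ := by
      intro z
      unfold bs dirac
      apply le_antisymm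
      · refine iSup_le fun w => iSup_le fun hw => ?_
        rw [← hw]
        exact le_iSup_of_le w.2 le_rfl
      · refine iSup_le fun hz => le_iSup_of_le ⟨z, hz⟩ ?_
        exact le_iSup_of_le rfl le_rfl
    rw [h1, h1]
    have h2 : dist (f.toFun x) (f.toFun x') < r := (f.nonexpanding x x').trans_lt hr
    have h3 : dist (f.toFun x) y < r ↔ dist (f.toFun x') y < r := by
      constructor
      · intro h
        exact (dist_triangle_max _ (f.toFun x) y).trans_lt (max_lt (by rwa [dist_comm]) h)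
      · intro h
        exact (dist_triangle_max _ (f.toFun x') y).trans_lt (max_lt h2 h)
    rw [iSup_congr_Prop h3 fun _ => rfl]

/-- The identity of `X` in the category of ultrametric spaces. -/
def UHom.id (X : UMet.{u}) : UHom X X := ⟨fun x => x, fun _ _ => le_rfl⟩

/-- The identity of `X` in the Kleisli category: `δ_X`. -/
noncomputable def KHom.id (X : UMet.{u}) : KHom X X := Phi (UHom.id X)

/-- The composition `g * f = ξ_Z ∘ J_ω(g) ∘ f` of the Kleisli category. -/
noncomputable def KHom.comp {X Y Z : UMet.{u}} (g : KHom Y Z) (f : KHom X Y) : KHom X Z where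
  toFun x := join ((f.toFun x).map g.toFun)
  nonexpanding := by
    rw [nonexpanding_iff]
    intro x x' r hr z
    have hr0 : 0 < r := dist_nonneg.trans_lt hr
    have hg := (nonexpanding_iff g.toFun).mp g.nonexpanding
    have hf := (nonexpanding_iff f.toFun).mp f.nonexpanding
    have h1 : ∀ y y' : Y, dist y' y < r → (g.toFun y').bs r z = (g.toFun y).bs r z :=
      fun y y' h => hg y' y r h z
    rw [bs_bind, bs_bind]
    have e1 := eval_eq_bs (f.toFun x) hr0 (h := fun y => (g.toFun y).bs r z) h1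
    have e2 := eval_eq_bs (f.toFun x') hr0 (h := fun y => (g.toFun y).bs r z) h1
    unfold eval at e1 e2
    rw [e1, e2]
    exact iSup_congr fun y => by rw [hf x x' r hr y]

/-! ### Symmetric powers -/

/-- The action of `S_n` on `X^n` by permutation of coordinates. -/
def permSetoid (n : ℕ) (X : Type u) : Setoid (Fin n → X) where
  r x y := ∃ σ : Equiv.Perm (Fin n), x = y ∘ σ
  iseqv :=
    { refl := fun x => ⟨1, rfl⟩
      symm := by
        rintro x y ⟨σ, rfl⟩
        exact ⟨σ⁻¹, by ext i; simp⟩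
      trans := by
        rintro x y z ⟨σ, rfl⟩ ⟨τ, rfl⟩
        exact ⟨τ * σ, rfl⟩ }

/-- The symmetric power `SPⁿ(X) = Xⁿ / S_n`. -/
def SPow (n : ℕ) (X : Type u) : Type u := Quotient (permSetoid n X)

/-- The orbit `[x₁, …, x_n]`. -/
def SPow.mk {n : ℕ} {X : Type u} (x : Fin n → X) : SPow n X := Quotient.mk (permSetoid n X) x

theorem SPow.mk_eq {n : ℕ} {X : Type u} {x y : Fin n → X} :
    SPow.mk x = SPow.mk y ↔ ∃ σ : Equiv.Perm (Fin n), x = y ∘ σ :=
  ⟨fun h => Quotient.exact (s := permSetoid n X) h,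
    fun h => Quotient.sound (s := permSetoid n X) h⟩

theorem dist_comp_perm {n : ℕ} {X : Type u} [MetricSpace X] (x y : Fin n → X)
    (σ : Equiv.Perm (Fin n)) : dist (x ∘ σ) (y ∘ σ) = dist x y := by
  apply le_antisymm
  · rw [dist_pi_le_iff dist_nonneg]
    intro i
    exact dist_le_pi_dist x y (σ i)
  · rw [dist_pi_le_iff dist_nonneg]
    intro i
    have := dist_le_pi_dist (x ∘ σ) (y ∘ σ) (σ⁻¹ i)
    simpa using this

/-- The distance `min_σ max_i d(x_i, y_{σ(i)})` on `SPⁿ(X)`. -/
noncomputable def SPow.dist {n : ℕ} {X : Type u} [MetricSpace X] (p q : SPow n X) : ℝ :=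
  Quotient.liftOn₂' p q (fun x y => ⨅ σ : Equiv.Perm (Fin n), Dist.dist x (y ∘ σ)) (by
    rintro x y x' y' ⟨τ, rfl⟩ ⟨ρ, rfl⟩
    -- `x = x' ∘ τ`, `y = y' ∘ ρ`
    let e : Equiv.Perm (Fin n) ≃ Equiv.Perm (Fin n) :=
      (Equiv.mulLeft ρ).trans (Equiv.mulRight τ⁻¹)
    refine e.iInf_congr fun σ => ?_
    rw [← dist_comp_perm (x' ∘ τ) _ τ⁻¹]
    congr 1
    ext i; simp)

theorem SPow.dist_mk {n : ℕ} {X : Type u} [MetricSpace X] (x y : Fin n → X) :
    SPow.dist (SPow.mk x) (SPow.mk y) = ⨅ σ : Equiv.Perm (Fin n), Dist.dist x (y ∘ σ) := rfl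

theorem SPow.exists_dist {n : ℕ} {X : Type u} [MetricSpace X] (x y : Fin n → X) :
    ∃ σ : Equiv.Perm (Fin n), SPow.dist (SPow.mk x) (SPow.mk y) = Dist.dist x (y ∘ σ) := by
  rw [SPow.dist_mk]
  obtain ⟨σ, hσ⟩ := exists_eq_ciInf_of_finite (f := fun σ : Equiv.Perm (Fin n) =>
    Dist.dist x (y ∘ σ))
  exact ⟨σ, hσ.symm⟩

theorem SPow.dist_le {n : ℕ} {X : Type u} [MetricSpace X] (x y : Fin n → X)
    (σ : Equiv.Perm (Fin n)) : SPow.dist (SPow.mk x) (SPow.mk y) ≤ Dist.dist x (y ∘ σ) := by
  rw [SPow.dist_mk]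
  exact ciInf_le (Set.finite_range _).bddBelow σ

theorem SPow.ind {n : ℕ} {X : Type u} {P : SPow n X → Prop} (h : ∀ x, P (SPow.mk x)) (p : SPow n X) :
    P p := Quotient.ind h p

theorem SPow.dist_ultra {n : ℕ} {X : Type u} [MetricSpace X] [IsUltrametricDist X]
    (p q r : SPow n X) : SPow.dist p r ≤ max (SPow.dist p q) (SPow.dist q r) := by
  induction p using SPow.ind with | _ x =>
  induction q using SPow.ind with | _ y =>
  induction r using SPow.ind with | _ z =>
  obtain ⟨σ, hσ⟩ := SPow.exists_dist x y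
  obtain ⟨τ, hτ⟩ := SPow.exists_dist y z
  rw [hσ, hτ]
  refine (SPow.dist_le x z (τ * σ)).trans ?_
  have h1 : Dist.dist y (z ∘ τ) = Dist.dist (y ∘ σ) (z ∘ (τ * σ : Equiv.Perm (Fin n))) := by
    rw [← dist_comp_perm y (z ∘ τ) σ]; rfl
  rw [h1]
  rw [dist_pi_le_iff (le_max_of_le_left dist_nonneg)]
  intro i
  refine (dist_triangle_max (x i) ((y ∘ σ) i) _).trans (max_le_max ?_ ?_)
  · exact dist_le_pi_dist x (y ∘ σ) i
  · exact dist_le_pi_dist (y ∘ σ) _ i

/-- The ultrametric on `SPⁿ(X)`. -/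
noncomputable instance (n : ℕ) (X : Type u) [MetricSpace X] [IsUltrametricDist X] :
    MetricSpace (SPow n X) where
  dist := SPow.dist
  dist_self p := by
    induction p using SPow.ind with | _ x =>
    apply le_antisymm
    · have := SPow.dist_le x x 1
      simpa using this
    · obtain ⟨σ, hσ⟩ := SPow.exists_dist x x
      rw [hσ]; exact dist_nonneg
  dist_comm p q := by
    induction p using SPow.ind with | _ x =>
    induction q using SPow.ind with | _ y =>
    have key : ∀ x y : Fin n → X, SPow.dist (SPow.mk x) (SPow.mk y) ≤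
        SPow.dist (SPow.mk y) (SPow.mk x) := by
      intro x y
      obtain ⟨σ, hσ⟩ := SPow.exists_dist y x
      rw [hσ, dist_comm, ← dist_comp_perm _ _ σ⁻¹]
      have h1 : (x ∘ σ) ∘ (σ⁻¹ : Equiv.Perm (Fin n)) = x := by ext i; simp
      rw [h1]
      exact SPow.dist_le x y σ⁻¹
    exact le_antisymm (key x y) (key y x)
  dist_triangle p q r := (SPow.dist_ultra p q r).trans (by
    have hn : ∀ p q : SPow n X, 0 ≤ SPow.dist p q := by
      intro p q
      induction p using SPow.ind with | _ x =>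
      induction q using SPow.ind with | _ y =>
      obtain ⟨σ, hσ⟩ := SPow.exists_dist x y
      rw [hσ]; exact dist_nonneg
    exact max_le_add_of_nonneg (hn _ _) (hn _ _))
  eq_of_dist_eq_zero {p q} h := by
    induction p using SPow.ind with | _ x =>
    induction q using SPow.ind with | _ y =>
    obtain ⟨σ, hσ⟩ := SPow.exists_dist x y
    have h2 : Dist.dist x (y ∘ σ) = 0 := by rw [← hσ]; exact h
    rw [SPow.mk_eq]
    exact ⟨σ, dist_eq_zero.mp h2⟩

instance (n : ℕ) (X : Type u) [MetricSpace X] [IsUltrametricDist X] :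
    IsUltrametricDist (SPow n X) where
  dist_triangle_max := SPow.dist_ultra

/-- The functor `SPⁿ` on objects. -/
noncomputable def SP (n : ℕ) (X : UMet.{u}) : UMet.{u} := ⟨SPow n X⟩

/-- The map `[x_i] ↦ [f(x_i)]`. -/
def SPow.map {n : ℕ} {X Y : Type u} (f : X → Y) (p : SPow n X) : SPow n Y :=
  Quotient.map' (s₁ := permSetoid n X) (s₂ := permSetoid n Y) (fun x i => f (x i)) (by
    rintro x y ⟨σ, rfl⟩
    exact ⟨σ, rfl⟩) p

theorem SPow.map_mk {n : ℕ} {X Y : Type u} (f : X → Y) (x : Fin n → X) :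
    SPow.map f (SPow.mk x) = SPow.mk fun i => f (x i) := rfl

theorem SPow.dist_lt_iff {n : ℕ} {X : Type u} [MetricSpace X] [IsUltrametricDist X]
    (x y : Fin n → X) (r : ℝ) :
    Dist.dist (SPow.mk x) (SPow.mk y) < r ↔ ∃ σ : Equiv.Perm (Fin n), Dist.dist x (y ∘ σ) < r := by
  constructor
  · intro h
    obtain ⟨σ, hσ⟩ := SPow.exists_dist x y
    exact ⟨σ, by rw [← hσ]; exact h⟩
  · rintro ⟨σ, hσ⟩
    exact (SPow.dist_le x y σ).trans_lt hσ

/-- The functor `SPⁿ` on morphisms. -/
noncomputable def SPmap (n : ℕ) {X Y : UMet.{u}} (f : UHom X Y) : UHom (SP n X) (SP n Y) where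
  toFun := SPow.map f.toFun
  nonexpanding := by
    intro p q
    change SPow n X at p q
    induction p using SPow.ind with | _ x =>
    induction q using SPow.ind with | _ y =>
    obtain ⟨σ, hσ⟩ := SPow.exists_dist x y
    have h1 : Dist.dist (SPow.map f.toFun (SPow.mk x)) (SPow.map f.toFun (SPow.mk y)) ≤
        Dist.dist (fun i => f.toFun (x i)) ((fun i => f.toFun (y i)) ∘ σ) := SPow.dist_le _ _ σ
    refine h1.trans (le_trans ?_ hσ.ge)
    rw [dist_pi_le_iff dist_nonneg]
    intro i
    exact (f.nonexpanding _ _).trans (dist_le_pi_dist x (y ∘ σ) i)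

/-- An extension of the functor `SPⁿ` onto the Kleisli category: a functor `F` from the Kleisli
category to itself with `F ∘ Φ = Φ ∘ SPⁿ`. (As `Φ` is the identity on objects, `F` acts as `SPⁿ` on
objects, and what is left is the action on morphisms.) -/
@[ext] structure Extension (n : ℕ) where
  map : ∀ {X Y : UMet.{u}}, KHom X Y → KHom (SP n X) (SP n Y)
  map_id : ∀ X : UMet.{u}, map (KHom.id X) = KHom.id (SP n X)
  map_comp : ∀ {X Y Z : UMet.{u}} (g : KHom Y Z) (f : KHom X Y),
    map (g.comp f) = (map g).comp (map f)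
  map_Phi : ∀ {X Y : UMet.{u}} (f : UHom X Y), map (Phi f) = Phi (SPmap n f)

/-! ### The extensions -/

theorem symPow_perm_le {n : ℕ} {Y : Type u} (μ : Fin n → MaxMin Y) (σ : Equiv.Perm (Fin n))
    (q : SPow n Y) : ((MaxMin.prod fun i => μ (σ i)).map SPow.mk).coef q ≤
      ((MaxMin.prod μ).map SPow.mk).coef q := by
  refine iSup_le fun y => ?_
  refine le_iSup_of_le (⟨fun i => y.1 (σ⁻¹ i), ?_⟩ : {y // SPow.mk y = q}) ?_
  · refine Eq.trans ?_ y.2
    rw [SPow.mk_eq]
    exact ⟨σ⁻¹, rfl⟩
  · refine le_iInf fun i => iInf_le_of_le (σ⁻¹ i) ?_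
    simp

theorem symPow_perm {n : ℕ} {Y : Type u} (μ : Fin n → MaxMin Y) (σ : Equiv.Perm (Fin n)) :
    (MaxMin.prod fun i => μ (σ i)).map SPow.mk = (MaxMin.prod μ).map SPow.mk := by
  ext q
  apply le_antisymm
  · exact symPow_perm_le μ σ q
  · have := symPow_perm_le (fun i => μ (σ i)) σ⁻¹ q
    simpa using this

/-- the image in `J_ω(SPⁿ(Y))` of the product of measures on `Y` -/
noncomputable def lam {n : ℕ} {X Y : Type u} (f : X → MaxMin Y) (p : SPow n X) :
    MaxMin (SPow n Y) :=
  Quotient.liftOn' p (fun x => (MaxMin.prod fun i => f (x i)).map SPow.mk) (by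
    rintro x y ⟨σ, rfl⟩
    exact symPow_perm (fun i => f (y i)) σ)

theorem lam_mk {n : ℕ} {X Y : Type u} (f : X → MaxMin Y) (x : Fin n → X) :
    lam f (SPow.mk x) = (MaxMin.prod fun i => f (x i)).map SPow.mk := rfl

theorem coef_lam_mk {n : ℕ} {X Y : Type u} (f : X → MaxMin Y) (x : Fin n → X) (q : SPow n Y) :
    (lam f (SPow.mk x)).coef q = ⨆ y : {y : Fin n → Y // SPow.mk y = q},
      ⨅ i, (f (x i)).coef (y.1 i) := rfl

theorem bs_symPow {n : ℕ} {Y : Type u} [MetricSpace Y] [IsUltrametricDist Y]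
    (μ : Fin n → MaxMin Y) {r : ℝ} (hr : 0 < r) (z : Fin n → Y) :
    ((MaxMin.prod μ).map SPow.mk).bs r (SPow.mk z) =
      ⨆ σ : Equiv.Perm (Fin n), ⨅ i, (μ i).bs r (z (σ i)) := by
  rw [bs_map]
  apply le_antisymm
  · refine iSup_le fun y => ?_
    obtain ⟨σ, hσ⟩ := (SPow.dist_lt_iff y.1 z r).mp y.2
    refine le_iSup_of_le σ (le_iInf fun i => iInf_le_of_le i ?_)
    exact le_iSup_of_le (⟨y.1 i, (dist_pi_lt_iff hr).mp hσ i⟩ : {w // dist w (z (σ i)) < r}) le_rfl
  · refine iSup_le fun σ => ?_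
    unfold bs
    rw [iInf_iSup_eq]
    refine iSup_le fun g => ?_
    refine le_iSup_of_le (⟨fun i => (g i).1, ?_⟩ : {y // dist (SPow.mk y) (SPow.mk z) < r}) le_rfl
    rw [SPow.dist_lt_iff]
    exact ⟨σ, (dist_pi_lt_iff hr).mpr fun i => (g i).2⟩

theorem lam_nonexpanding {n : ℕ} {X Y : UMet.{u}} (f : KHom X Y) (p q : SP n X) (r : ℝ)
    (h : dist p q < r) (y : SP n Y) : (lam f.toFun p).bs r y = (lam f.toFun q).bs r y := by
  have hr : 0 < r := dist_nonneg.trans_lt h
  change SPow n X at p q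
  change SPow n Y at y
  induction p using SPow.ind with | _ x =>
  induction q using SPow.ind with | _ x' =>
  induction y using SPow.ind with | _ y =>
  obtain ⟨σ, hσ⟩ := (SPow.dist_lt_iff x x' r).mp h
  have e1 : SPow.mk x' = SPow.mk (x' ∘ σ) := by
    rw [SPow.mk_eq]
    exact ⟨σ⁻¹, by ext i; simp⟩
  rw [e1, lam_mk, lam_mk, bs_symPow _ hr, bs_symPow _ hr]
  refine iSup_congr fun τ => iInf_congr fun i => ?_
  exact (nonexpanding_iff f.toFun).mp f.nonexpanding _ _ r ((dist_pi_lt_iff hr).mp hσ i) _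

/-- the change of the coefficients by an order automorphism of `[-∞, ∞]` -/
noncomputable def twist {X : Type u} (e : EReal ≃o EReal) (μ : MaxMin X) : MaxMin X where
  coef x := e (μ.coef x)
  finite_support := by
    refine μ.finite_support.subset fun x hx h => hx ?_
    show e (μ.coef x) = ⊥
    rw [h, OrderIso.map_bot]
  exists_top := by
    obtain ⟨x, hx⟩ := μ.exists_top
    exact ⟨x, by rw [hx, OrderIso.map_top]⟩

theorem bs_twist {X : Type u} [MetricSpace X] (e : EReal ≃o EReal) (μ : MaxMin X) (r : ℝ) (x : X) :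
    (twist e μ).bs r x = e (μ.bs r x) := by
  unfold bs
  rw [OrderIso.map_iSup]
  rfl

theorem twist_dirac {X : Type u} (e : EReal ≃o EReal) (x : X) : twist e (dirac x) = dirac x := by
  ext y
  show e (⨆ _ : y = x, ⊤) = ⨆ _ : y = x, ⊤
  rw [OrderIso.map_iSup]
  simp

theorem twist_bind {X Y : Type u} (e : EReal ≃o EReal) (g : X → MaxMin Y) (μ : MaxMin X) :
    twist e (join (μ.map g)) = join ((twist e μ).map fun x => twist e (g x)) := by
  ext y
  show e ((join (μ.map g)).coef y) = _
  rw [coef_join_map, coef_join_map, OrderIso.map_iSup]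
  refine iSup_congr fun x => ?_
  rw [OrderIso.map_inf]
  rfl

theorem lam_bind {n : ℕ} {X Y Z : Type u} (g : Y → MaxMin Z) (f : X → MaxMin Y) (p : SPow n X) :
    lam (fun x => join ((f x).map g)) p = join ((lam f p).map (lam g)) := by
  induction p using SPow.ind with | _ x =>
  ext q
  rw [coef_lam_mk, coef_join_map, lam_mk, coef_map_inf]
  simp only [coef_join_map, iInf_iSup_eq, coef_lam_mk]
  rw [iSup_comm]
  refine iSup_congr fun y => ?_
  rw [inf_iSup_eq]
  refine iSup_congr fun z => ?_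
  rw [iInf_inf_eq]
  rfl

theorem lam_dirac {n : ℕ} {X Y : Type u} (f : X → Y) (p : SPow n X) :
    lam (fun x => dirac (f x)) p = dirac (SPow.map f p) := by
  induction p using SPow.ind with | _ x =>
  ext q
  rw [coef_lam_mk, SPow.map_mk]
  show _ = ⨆ _ : q = SPow.mk fun i => f (x i), ⊤
  apply le_antisymm
  · refine iSup_le fun y => ?_
    by_cases h : y.1 = fun i => f (x i)
    · refine le_iSup_of_le (by rw [← y.2, h]) le_top
    · obtain ⟨i, hi⟩ : ∃ i, y.1 i ≠ f (x i) := by
        by_contra hcon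
        push Not at hcon
        exact h (funext hcon)
      refine (iInf_le _ i).trans ?_
      show (⨆ _ : y.1 i = f (x i), ⊤) ≤ _
      simp [hi]
  · refine iSup_le fun hq => ?_
    refine le_iSup_of_le (⟨fun i => f (x i), hq.symm⟩ : {y // SPow.mk y = q}) ?_
    refine le_iInf fun i => ?_
    show _ ≤ (⨆ _ : f (x i) = f (x i), ⊤)
    simp

theorem SPow.map_id {n : ℕ} {X : Type u} (p : SPow n X) : SPow.map (fun x => x) p = p := by
  induction p using SPow.ind with | _ x => rfl

/-- The extension of `SPⁿ` associated with an order automorphism of `[-∞, ∞]`. -/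
noncomputable def ext (n : ℕ) (e : EReal ≃o EReal) : Extension.{u} n where
  map {X Y} f :=
    { toFun := fun p => twist e (lam f.toFun p)
      nonexpanding := by
        refine (nonexpanding_iff _).mpr ?_
        intro p q r h y
        refine (bs_twist e _ r y).trans (Eq.trans ?_ (bs_twist e _ r y).symm)
        exact congrArg e (lam_nonexpanding f p q r h y) }
  map_id X := by
    apply KHom.ext
    funext p
    exact (congrArg (twist e) (lam_dirac (fun x => x) p)).trans
      ((twist_dirac e _).trans (congrArg dirac (SPow.map_id p)))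
  map_comp {X Y Z} g f := by
    apply KHom.ext
    funext p
    exact (congrArg (twist e) (lam_bind g.toFun f.toFun p)).trans (twist_bind e _ _)
  map_Phi {X Y} f := by
    apply KHom.ext
    funext p
    exact (congrArg (twist e) (lam_dirac f.toFun p)).trans (twist_dirac e _)

/-! ### The extensions are distinct -/

/-- the one-point space -/
noncomputable def point : UMet.{u} where
  carrier := PUnit
  ultra := ⟨fun _ _ _ => by simp⟩

/-- a set with the discrete metric -/
structure Disc : Type u where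
  val : ULift.{u} Bool

open Classical in
noncomputable instance : MetricSpace Disc.{u} where
  dist x y := if x = y then 0 else 1
  dist_self x := if_pos rfl
  dist_comm x y := by
    by_cases h : x = y
    · rw [h]
    · rw [if_neg h, if_neg (Ne.symm h)]
  dist_triangle x y z := by
    by_cases h : x = y
    · subst h
      simp
    · rw [if_neg h]
      split_ifs <;> norm_num
  eq_of_dist_eq_zero {x y} h := by
    by_contra hne
    rw [if_neg hne] at h
    norm_num at h

open Classical in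
instance : IsUltrametricDist Disc.{u} where
  dist_triangle_max x y z := by
    show (if x = z then (0 : ℝ) else 1) ≤ max (if x = y then (0 : ℝ) else 1)
      (if y = z then (0 : ℝ) else 1)
    by_cases h : x = y
    · subst h
      simp
    · rw [if_neg h]
      refine le_max_of_le_left ?_
      split_ifs <;> norm_num

/-- the two-point space -/
noncomputable def two : UMet.{u} := ⟨Disc.{u}⟩

/-- the morphism from the point to the two-point space with coefficients `∞` and `t` -/
noncomputable def test (t : EReal) : KHom point.{u} two.{u} where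
  toFun _ :=
    { coef := fun y => if (y : Disc.{u}).val.down = true then t else ⊤
      finite_support := by
        have : Finite Disc.{u} := Finite.of_injective (fun y : Disc.{u} => y.val) (by
          rintro ⟨x⟩ ⟨y⟩ h
          exact congrArg Disc.mk h)
        exact Set.toFinite (α := Disc.{u}) _
      exists_top := ⟨(⟨⟨false⟩⟩ : Disc.{u}), by simp⟩ }
  nonexpanding x x' := by
    rw [dist_self]
    exact dist_nonneg

theorem ext_test {n : ℕ} (hn : 1 ≤ n) (e : EReal ≃o EReal) (t : EReal) :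
    (((ext n e).map (test.{u} t)).toFun (SPow.mk fun _ => PUnit.unit)).coef
      (SPow.mk fun _ => (⟨⟨true⟩⟩ : Disc.{u})) = e t := by
  show e ((lam (test.{u} t).toFun (SPow.mk fun _ => PUnit.unit)).coef
      (SPow.mk fun _ => (⟨⟨true⟩⟩ : Disc.{u}))) = e t
  congr 1
  show (⨆ y : {y : Fin n → Disc.{u} // SPow.mk y = SPow.mk fun _ => (⟨⟨true⟩⟩ : Disc.{u})},
    ⨅ i, (((test.{u} t).toFun PUnit.unit).coef (y.1 i))) = t
  have key : ∀ y : {y : Fin n → Disc.{u} // SPow.mk y = SPow.mk fun _ => (⟨⟨true⟩⟩ : Disc.{u})},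
      ∀ i, y.1 i = ⟨⟨true⟩⟩ := by
    rintro ⟨y, hy⟩ i
    obtain ⟨σ, hσ⟩ := SPow.mk_eq.mp hy
    simp [hσ]
  apply le_antisymm
  · refine iSup_le fun y => (iInf_le _ ⟨0, hn⟩).trans ?_
    show (if (y.1 ⟨0, hn⟩).val.down = true then t else ⊤) ≤ t
    rw [key y]
    simp
  · refine le_iSup_of_le ⟨fun _ => ⟨⟨true⟩⟩, rfl⟩ (le_iInf fun i => ?_)
    show t ≤ (if (⟨⟨true⟩⟩ : Disc.{u}).val.down = true then t else ⊤)
    simp

theorem ext_injective {n : ℕ} (hn : 1 ≤ n) : Function.Injective (ext.{u} n) := by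
  intro e e' h
  apply OrderIso.ext
  funext t
  have h1 := ext_test.{u} hn e t
  rw [h, ext_test.{u} hn e' t] at h1
  exact h1.symm

/-- the translation of `[-∞, ∞]` by a real number -/
noncomputable def translate (t : ℝ) : EReal ≃o EReal where
  toFun x := x + t
  invFun x := x - t
  left_inv x := by
    exact EReal.add_sub_cancel_right
  right_inv x := by
    exact EReal.sub_add_cancel
  map_rel_iff' := by
    intro a b
    show a + t ≤ b + t ↔ a ≤ b
    constructor
    · intro h
      have := EReal.sub_le_sub h (le_refl (t : EReal))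
      rwa [EReal.add_sub_cancel_right, EReal.add_sub_cancel_right] at this
    · intro h
      exact add_le_add h le_rfl

/-! ### The encoding by coefficients -/

section Encoding

variable {X : Type u} [MetricSpace X] [IsUltrametricDist X]

theorem continuous_of_ballConst {r : ℝ} (hr : 0 < r) {φ : X → ℝ} (hφ : φ ∈ ballConst X r) :
    Continuous φ := by
  rw [continuous_iff_continuousAt]
  intro x
  have h1 : φ =ᶠ[nhds x] fun _ => φ x := by
    filter_upwards [ball_mem_nhds x hr] with y hy
    exact hφ x y hy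
  exact (continuousAt_congr h1).mpr continuousAt_const

/-- the coefficients are determined by the functional on `C(X)` -/
theorem eval_injective :
    Function.Injective fun (μ : MaxMin X) (φ : C(X, ℝ)) => μ.eval fun x => (φ x : EReal) := by
  intro μ ν h
  apply eq_of_agree
  intro r hr φ hφ
  exact congrFun h ⟨φ, continuous_of_ballConst hr hφ⟩

/-- the functionals on `C(X)` of the form `φ ↦ maxᵢ min(αᵢ, φ(xᵢ))` with `maxᵢ αᵢ = +∞` -/
theorem range_eval :
    Set.range (fun (μ : MaxMin X) (φ : C(X, ℝ)) => μ.eval fun x => (φ x : EReal)) =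
      {Λ | ∃ (k : ℕ) (α : Fin k → EReal) (x : Fin k → X), (∃ i, α i = ⊤) ∧
        ∀ φ : C(X, ℝ), Λ φ = ⨆ i, α i ⊓ (φ (x i) : EReal)} := by
  ext Λ
  constructor
  · rintro ⟨μ, rfl⟩
    obtain ⟨k, f, -, hf⟩ := μ.finite_support.fin_param
    refine ⟨k, fun i => μ.coef (f i), f, ?_, ?_⟩
    · obtain ⟨x, hx⟩ := μ.exists_top
      have h1 : x ∈ Set.range f := by
        rw [hf]
        show μ.coef x ≠ ⊥
        rw [hx]; exact top_ne_bot
      obtain ⟨i, rfl⟩ := h1
      exact ⟨i, hx⟩
    · intro φ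
      apply le_antisymm
      · refine iSup_le fun x => ?_
        by_cases hx : μ.coef x = ⊥
        · show μ.coef x ⊓ (φ x : EReal) ≤ _
          rw [hx, bot_inf_eq]; exact bot_le
        · have h1 : x ∈ Set.range f := by
            rw [hf]
            exact hx
          obtain ⟨i, rfl⟩ := h1
          exact le_iSup (fun i => μ.coef (f i) ⊓ (φ (f i) : EReal)) i
      · exact iSup_le fun i => le_iSup (fun x => μ.coef x ⊓ (φ x : EReal)) (f i)
  · rintro ⟨k, α, x, ⟨i₀, hi₀⟩, hΛ⟩
    refine ⟨⟨fun y => ⨆ i : {i // x i = y}, α i, ?_, ?_⟩, ?_⟩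
    · refine (Set.finite_range x).subset fun y hy => ?_
      by_contra hcon
      apply hy
      rw [iSup_eq_bot]
      intro i
      exact absurd ⟨i.1, i.2⟩ hcon
    · exact ⟨x i₀, top_le_iff.mp (le_iSup_of_le ⟨i₀, rfl⟩ hi₀.ge)⟩
    · funext φ
      rw [hΛ]
      apply le_antisymm
      · refine iSup_le fun y => ?_
        show (⨆ i : {i // x i = y}, α i) ⊓ (φ y : EReal) ≤ _
        rw [iSup_inf_eq]
        refine iSup_le fun i => le_iSup_of_le i.1 ?_
        rw [i.2]
      · refine iSup_le fun i => le_iSup_of_le (x i) (inf_le_inf_right _ ?_)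
        exact le_iSup_of_le (⟨i, rfl⟩ : {j // x j = x i}) le_rfl

end Encoding

/-- **The encoding of max-min measures by coefficients is faithful.** For every ultrametric space
`X`, `μ ↦ (φ ↦ μ(φ))` is a bijection from `MaxMin X` onto the set of the functionals
`φ ↦ maxᵢ min(αᵢ, φ(xᵢ))` on `C(X)` with `maxᵢ αᵢ = +∞`; under it `dirac`, `map` and `join`
correspond to `δ`, `J_ω(f)` and `ξ`. -/
def EncodingFaithful : Prop :=
  (∀ (X : Type u) [MetricSpace X] [IsUltrametricDist X],
    (Function.Injective fun (μ : MaxMin X) (φ : C(X, ℝ)) => μ.eval fun x => (φ x : EReal)) ∧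
    Set.range (fun (μ : MaxMin X) (φ : C(X, ℝ)) => μ.eval fun x => (φ x : EReal)) =
      {Λ | ∃ (k : ℕ) (α : Fin k → EReal) (x : Fin k → X), (∃ i, α i = ⊤) ∧
        ∀ φ : C(X, ℝ), Λ φ = ⨆ i, α i ⊓ (φ (x i) : EReal)}) ∧
  (∀ (X : Type u) (x : X) (φ : X → EReal), (dirac x).eval φ = φ x) ∧
  (∀ (X Y : Type u) (f : X → Y) (μ : MaxMin X) (φ : Y → EReal),
    (μ.map f).eval φ = μ.eval fun x => φ (f x)) ∧
  ∀ (X : Type u) (M : MaxMin (MaxMin X)) (φ : X → EReal),
    (join M).eval φ = M.eval fun μ => μ.eval φ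

/-- **The symmetric powers have many extensions onto the Kleisli category.** For every `n ≥ 1` there
are pairwise distinct extensions of `SPⁿ` onto the Kleisli category of the monad of max-min
measures, one for every order automorphism of `[-∞, ∞]`; in particular there are two distinct
extensions, and even a family of pairwise distinct extensions indexed by the real numbers. -/
theorem result :
    EncodingFaithful.{u} ∧ ∀ n : ℕ, 1 ≤ n →
      (∃ F : (EReal ≃o EReal) → Extension.{u} n, Function.Injective F) ∧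
      (∃ F : ℝ → Extension.{u} n, Function.Injective F) ∧
      (∃ F G : Extension.{u} n, F ≠ G) := by
  refine ⟨⟨fun X _ _ => ⟨eval_injective, range_eval⟩, ?_, ?_, ?_⟩, ?_⟩
  · intro X x φ
    exact coef_dirac_inf x φ
  · intro X Y f μ φ
    exact coef_map_inf f μ φ
  · intro X M φ
    show ⨆ x, (⨆ μ, M.coef μ ⊓ μ.coef x) ⊓ φ x = ⨆ μ, M.coef μ ⊓ ⨆ x, μ.coef x ⊓ φ x
    simp only [iSup_inf_eq, inf_iSup_eq, inf_assoc]
    rw [iSup_comm]
  · intro n hn
    have h1 : Function.Injective fun t : ℝ => ext.{u} n (translate t) := by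
      intro s t h
      have h2 := ext_injective hn h
      have h3 : (0 : EReal) + (s : EReal) = 0 + (t : EReal) :=
        congrArg (fun e : EReal ≃o EReal => e 0) h2
      rw [zero_add, zero_add] at h3
      exact EReal.coe_injective h3
    refine ⟨⟨ext n, ext_injective hn⟩, ⟨_, h1⟩, ext n (translate 0), ext n (translate 1), ?_⟩
    intro h
    exact zero_ne_one (h1 h)

end Pool.Agent.Results.MP_6cdbe4_gt.ManyExtensions
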